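import Pool.Agent.Helper826.Kap.Defs

/-!
MP_331e4f_al: groups whose augmentation ideal is the Jacobson radical and which contain a square.
-/

set_option autoImplicit false

namespace Pool.Agent.Results.MP_331e4f_al.Squares

open Pool.Agent.Helper826.Kap

/-- Let `K` be a field. (1) If `G` is a group with `J(K[G]) = ω(K[G])` and `H × H` embeds in `G`,
then `ω(K[H])` is nil. (2) If `G` is a group with `J(K[G]) = ω(K[G])`, `D` is a nontrivial group
and the square of the restricted wreath product `D ≀ Q` embeds in `G`, then `Q` is locally finite.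
(3) If `D` is a nontrivial locally finite group, `G` is the square of `D ≀ Q` and
`J(K[G]) = ω(K[G])`, then `K` has prime characteristic `p` and `G` is a locally finite
`p`-group. -/
theorem result (K : Type) [Field K] :
    (∀ (G H : Type) [Group G] [Group H] (φ : H × H →* G), Function.Injective φ →
      RadicalIsAug K G → NilAug K H) ∧
    (∀ (G D Q : Type) [Group G] [Group D] [Nontrivial D] [Group Q] (φ : Wr D Q × Wr D Q →* G),
      Function.Injective φ → RadicalIsAug K G → LocFin Q) ∧
    (∀ (D Q : Type) [Group D] [Nontrivial D] [Group Q], LocFin D →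
      RadicalIsAug K (Wr D Q × Wr D Q) →
      ∃ p : ℕ, p.Prime ∧ CharP K p ∧ IsPGroup p (Wr D Q × Wr D Q) ∧ LocFin (Wr D Q × Wr D Q)) := by
  refine ⟨?_, ?_, ?_⟩
  · intro G H _ _ φ hφ hJ
    exact square K G hJ.ge H φ hφ
  · intro G D Q _ _ _ _ φ hφ hJ S
    exact wreath_nil K D Q (square K G hJ.ge (Wr D Q) φ hφ) S
  · intro D Q _ _ _ hD hJ
    have hQ : ∀ S : Finset Q, Finite (Subgroup.closure (S : Set Q)) :=
      wreath_nil K D Q (square K _ hJ.ge (Wr D Q) (MonoidHom.id _) Function.injective_id)
    have hW : ∀ S : Finset (Wr D Q), Finite (Subgroup.closure (S : Set (Wr D Q))) :=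
      wreath_locally_finite D Q hD hQ
    obtain ⟨a, ha⟩ := exists_ne (1 : D)
    have hnt : Nontrivial (Wr D Q × Wr D Q) := by
      refine ⟨(base a, 1), 1, fun h => ha ?_⟩
      have h1 : (base a : Wr D Q) = 1 := congrArg Prod.fst h
      have h2 := congrArg (fun g : Wr D Q => g.1.left 1) h1
      have h3 : a = 1 := by
        rw [← left_base_one (Q := Q) a]
        exact h2
      exact h3
    have hG := prod_locally_finite _ _ hW hW
    obtain ⟨p, hp, hc, hpG, -⟩ := forward K _ hJ.ge hG
    exact ⟨p, hp, hc, hpG, hG⟩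

end Pool.Agent.Results.MP_331e4f_al.Squares
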